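import Pool.Agent.Helper50.HT.Stmts

/-! Row PTC of the sheet HT: point charges. -/

set_option autoImplicit false

namespace Pool.Agent.Helper4.HT

open MeasureTheory Filter Pool.Agent.Helper95 Pool.Agent.Helper95.PW Pool.Agent.Helper95.LN
open Pool.Agent.Helper50.HT

theorem nr_eq (y : R3) : nr y = ‖(WithLp.toLp 2 y : EuclideanSpace ℝ (Fin 3))‖ := by
  rw [EuclideanSpace.norm_eq]
  simp [nr, Fin.sum_univ_three]

theorem nr_nonneg (y : R3) : 0 ≤ nr y := Real.sqrt_nonneg _

theorem nr_comm (x y : R3) : nr (x - y) = nr (y - x) := by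
  unfold nr
  congr 1
  simp only [Pi.sub_apply]
  ring

theorem nr_zero : nr (0 : R3) = 0 := by
  unfold nr
  simp

theorem nr_tri (y a b : R3) : nr (a - b) ≤ nr (y - a) + nr (y - b) := by
  rw [nr_comm y a, nr_eq, nr_eq, nr_eq]
  have h : (WithLp.toLp 2 (a - b) : EuclideanSpace ℝ (Fin 3)) =
      WithLp.toLp 2 (a - y) + WithLp.toLp 2 (y - b) := by
    rw [← WithLp.toLp_add, sub_add_sub_cancel]
  rw [h]
  exact norm_add_le _ _

theorem pd_tr (i : Fin 3) (g : R3 → ℝ) (c y : R3) :
    pd i (fun w => g (w - c)) y = pd i g (y - c) := by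
  unfold pd
  rw [fderiv_comp_sub]

theorem tsupport_tr (g : R3 → ℝ) (c y : R3) (h : y ∈ tsupport (fun w => g (w - c))) :
    y - c ∈ tsupport g := by
  have e : tsupport (fun w => g (w - c)) ⊆ (fun w => w - c) ⁻¹' tsupport g := by
    apply closure_minimal
    · intro w hw
      exact subset_tsupport g hw
    · exact (isClosed_tsupport g).preimage (by fun_prop)
  exact e h

theorem PTC (h1 : LN.ST_TRE) (h2 : LN.ST_ORB) (h3 : LN.ST_PT1) (h4 : LN.ST_PT2)
    (h5 : LN.ST_PHC) : ST_PTC := by
  have hkp : 0 < kap := h5.2.1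
  obtain ⟨C0, hC0, ho⟩ := h2
  refine ⟨C0, hC0, ?_⟩
  intro n M X Z E p a ha hZ hpp hpX hE
  obtain ⟨ψ, hs, han, hp, hk, hpr, hon⟩ := h1 n (fun k y => orb (a k) (y - p k))
    (fun l => (ho _ (ha l)).1.comp (contDiff_id.sub contDiff_const))
    (fun l => (ho _ (ha l)).2.1.comp_homeomorph (Homeomorph.subRight (p l)))
    (fun i j y hi hj => by
      by_contra hne
      have k1 := ((ho _ (ha i)).2.2.1 _ (tsupport_tr (orb (a i)) _ _ hi)).2
      have k2 := ((ho _ (ha j)).2.2.1 _ (tsupport_tr (orb (a j)) _ _ hj)).2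
      have k3 := hpp i j hne
      have k4 := nr_tri y (p i) (p j)
      have := ha i
      have := ha j
      linarith)
    (fun l => by
      have := (ho _ (ha l)).2.2.2.2.1
      rw [← integral_sub_right_eq_self _ (p l)] at this
      exact this)
  have hE1 := hE ψ hs han
  unfold QM at hE1
  rw [hk, hpr, hon M X Z] at hE1
  rw [← mul_add, ← mul_sub, mul_comm E] at hE1
  have hE2 := le_of_mul_le_mul_left hE1 hp
  have hf : ∀ k y, orb (a k) (y - p k) ^ 2 = et (a k) (y - p k) / kap := fun k y =>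
    (ho _ (ha k)).2.2.2.1 _
  -- kinetic energy
  have hkin : ∑ l, ∑ i, ∫ y, pd i (fun y => orb (a l) (y - p l)) y ^ 2 ≤
      C0 * ∑ l, 1 / a l ^ 2 := by
    rw [Finset.mul_sum]
    refine Finset.sum_le_sum fun l _ => ?_
    have e1 : ∑ i, ∫ y, pd i (fun y => orb (a l) (y - p l)) y ^ 2 =
        ∑ i, ∫ y, pd i (orb (a l)) y ^ 2 := by
      refine Finset.sum_congr rfl fun i _ => ?_
      rw [← integral_sub_right_eq_self (fun y => pd i (orb (a l)) y ^ 2) (p l)]
      refine integral_congr_ae (Eventually.of_forall fun y => ?_)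
      exact congrArg (fun z : ℝ => z ^ 2) (pd_tr i (orb (a l)) (p l) y)
    rw [e1, mul_one_div]
    exact (ho _ (ha l)).2.2.2.2.2
  -- attraction
  have hatt : ∑ l, ∑ j, Z j / nr (p l - X j) ≤
      ∑ l, ∑ j, Z j * ∫ y, orb (a l) (y - p l) ^ 2 / nr (y - X j) := by
    refine Finset.sum_le_sum fun l _ => Finset.sum_le_sum fun j _ => ?_
    rw [← mul_one_div]
    refine mul_le_mul_of_nonneg_left ?_ (hZ j)
    rcases hpX l j with h | h
    · rw [h, sub_self, nr_zero, div_zero]
      exact integral_nonneg fun y => div_nonneg (sq_nonneg _) (nr_nonneg _)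
    · have h6 := h3 (a l) (X j) (p l) (ha l) (by rw [nr_comm]; exact h)
      have e2 : ∫ y, orb (a l) (y - p l) ^ 2 / nr (y - X j) =
          (∫ y, et (a l) (y - p l) / nr (y - X j)) / kap := by
        rw [← integral_div]
        refine integral_congr_ae (Eventually.of_forall fun y => ?_)
        simp only [hf]
        rw [div_right_comm]
      rw [e2, h6, nr_comm, div_right_comm, div_self hkp.ne']
  -- repulsion
  have hrep : ∀ k l, k ≠ l → ∫ x, ∫ y, orb (a k) (x - p k) ^ 2 * orb (a l) (y - p l) ^ 2 /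
      nr (x - y) = 1 / nr (p k - p l) := by
    intro k l hkl
    have e0 : (∫ x, ∫ y, orb (a k) (x - p k) ^ 2 * orb (a l) (y - p l) ^ 2 / nr (x - y)) =
        (∫ x, ∫ y, et (a k) (x - p k) * et (a l) (y - p l) / nr (x - y)) / kap ^ 2 := by
      rw [← integral_div]
      refine integral_congr_ae (Eventually.of_forall fun x => ?_)
      simp only
      rw [← integral_div]
      refine integral_congr_ae (Eventually.of_forall fun y => ?_)
      simp only [hf]
      rw [div_mul_div_comm, div_right_comm, pow_two kap]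
    have hk2 : 0 < kap ^ 2 := by positivity
    rw [e0, (h4 _ _ (p k) (p l) (ha k) (ha l)).1 (hpp k l hkl), div_right_comm, div_self hk2.ne']
  have hpair : (∑ k, ∑ l, if k < l then ∫ x, ∫ y, orb (a k) (x - p k) ^ 2 *
      orb (a l) (y - p l) ^ 2 / nr (x - y) else 0) =
      ∑ k, ∑ l, if k < l then 1 / nr (p k - p l) else 0 := by
    refine Finset.sum_congr rfl fun k _ => Finset.sum_congr rfl fun l _ => ?_
    by_cases h : k < l
    · rw [if_pos h, if_pos h, hrep k l h.ne]
    · rw [if_neg h, if_neg h]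
  rw [hpair] at hE2
  linarith

end Pool.Agent.Helper4.HT
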